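import Mathlib

/-!
The arc lemma: if a finite set of natural numbers avoids an arc of `2m-1` consecutive residues
modulo `k * m`, then the fourth powers of its exponential sum at the multiples of `1 / (k * m)`
add up to at least `1 + 1/(k-1)^3` times the sum over the multiples of `1 / m`.
-/

set_option autoImplicit false

open Finset Real

namespace Pool.Agent.Helper73.MD

/-- `exp(2 π i t)` -/
noncomputable def ee (t : ℝ) : ℂ := Complex.exp (((2 * π * t : ℝ) : ℂ) * Complex.I)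

lemma ee_add (s t : ℝ) : ee (s + t) = ee s * ee t := by
  unfold ee
  rw [← Complex.exp_add]
  congr 1
  push_cast
  ring

lemma ee_zero : ee 0 = 1 := by simp [ee]

lemma norm_ee (t : ℝ) : ‖ee t‖ = 1 := by
  unfold ee
  exact Complex.norm_exp_ofReal_mul_I _

lemma ee_eq_one_iff (t : ℝ) : ee t = 1 ↔ ∃ n : ℤ, t = n := by
  unfold ee
  rw [Complex.exp_eq_one_iff]
  have h2 : (2 * (π : ℂ) * Complex.I) ≠ 0 := Complex.two_pi_I_ne_zero
  refine exists_congr fun n => ?_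
  constructor
  · intro h
    have h1 : ((t : ℂ)) * (2 * (π : ℂ) * Complex.I) = n * (2 * (π : ℂ) * Complex.I) := by
      rw [← h]
      push_cast
      ring
    have h3 := mul_right_cancel₀ h2 h1
    exact_mod_cast h3
  · rintro rfl
    push_cast
    ring

lemma ee_int (n : ℤ) : ee n = 1 := (ee_eq_one_iff _).mpr ⟨n, rfl⟩

lemma conj_ee (t : ℝ) : (starRingEnd ℂ) (ee t) = ee (-t) := by
  unfold ee
  rw [← Complex.exp_conj]
  congr 1
  rw [map_mul, Complex.conj_ofReal, Complex.conj_I]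
  push_cast
  ring

lemma ee_nat_mul (n : ℕ) (t : ℝ) : ee (n * t) = ee t ^ n := by
  unfold ee
  rw [← Complex.exp_nat_mul]
  congr 1
  push_cast
  ring

/-- orthogonality -/
lemma sum_ee {M : ℕ} (hM : 0 < M) (n : ℤ) :
    ∑ l ∈ range M, ee ((n : ℝ) * l / M) = if (M : ℤ) ∣ n then (M : ℂ) else 0 := by
  have h0 : (M : ℝ) ≠ 0 := by positivity
  split_ifs with h
  · obtain ⟨d, rfl⟩ := h
    rw [sum_congr rfl (g := fun _ => (1 : ℂ))]
    · simp
    · intro l _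
      have : (((M : ℤ) * d : ℤ) : ℝ) * l / M = ((d * l : ℤ) : ℝ) := by
        push_cast
        field_simp
      rw [this, ee_int]
  · have h1 : ee ((n : ℝ) / M) ≠ 1 := by
      intro h2
      obtain ⟨d, hd⟩ := (ee_eq_one_iff _).mp h2
      rw [div_eq_iff h0] at hd
      refine h ⟨d, ?_⟩
      have : (n : ℝ) = M * d := by rw [hd]; ring
      exact_mod_cast this
    have h2 : ∀ l ∈ range M, ee ((n : ℝ) * l / M) = ee ((n : ℝ) / M) ^ l := by
      intro l _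
      rw [← ee_nat_mul]
      congr 1
      ring
    rw [sum_congr rfl h2, geom_sum_eq h1, ← ee_nat_mul]
    have h3 : (M : ℝ) * ((n : ℝ) / M) = ((n : ℤ) : ℝ) := by field_simp
    rw [h3, ee_int]
    simp

/-- the exponential sum of a set -/
noncomputable def f (A : Finset ℕ) (t : ℝ) : ℂ := ∑ a ∈ A, ee (a * t)

lemma f_add_one (A : Finset ℕ) (t : ℝ) : f A (t + 1) = f A t := by
  unfold f
  refine sum_congr rfl fun a _ => ?_
  rw [mul_add, mul_one, ee_add]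
  have := ee_int a
  rw [Int.cast_natCast] at this
  rw [this, mul_one]

lemma f_zero (A : Finset ℕ) : f A 0 = A.card := by
  unfold f
  simp [ee_zero]

/-- the kernel of an interval -/
noncomputable def D (m M l : ℕ) : ℂ := ∑ i ∈ range m, ee (-((i : ℝ) * l / M))

lemma key {A : Finset ℕ} {m M c : ℕ} (hM : 0 < M)
    (hA : ∀ a ∈ A, ∀ i < 2 * m - 1, ¬ a ≡ c + i [MOD M]) (t : ℝ) :
    ∑ l ∈ range M, ee (-((c : ℝ) * l / M)) * D m M l ^ 2 * f A (t + l / M) = 0 := by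
  have h1 : ∀ l ∈ range M, ee (-((c : ℝ) * l / M)) * D m M l ^ 2 * f A (t + l / M) =
      ∑ a ∈ A, ∑ i ∈ range m, ∑ i' ∈ range m,
        ee (a * t) * ee ((((a : ℤ) - (c + (i + i')) : ℤ) : ℝ) * l / M) := by
    intro l _
    unfold D f
    rw [mul_sum]
    refine sum_congr rfl fun a _ => ?_
    rw [sq, sum_mul_sum, mul_sum, sum_mul]
    refine sum_congr rfl fun i _ => ?_
    rw [mul_sum, sum_mul]
    refine sum_congr rfl fun i' _ => ?_
    rw [← ee_add, ← ee_add, ← ee_add, ← ee_add]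
    congr 1
    push_cast
    ring
  rw [sum_congr rfl h1, sum_comm]
  refine sum_eq_zero fun a ha => ?_
  rw [sum_comm]
  refine sum_eq_zero fun i hi => ?_
  rw [sum_comm]
  refine sum_eq_zero fun i' hi' => ?_
  rw [← mul_sum, sum_ee hM, if_neg, mul_zero]
  intro h
  rw [mem_range] at hi hi'
  refine hA a ha (i + i') (by omega) (Nat.ModEq.symm ?_)
  rw [Nat.modEq_iff_dvd]
  push_cast
  exact h

lemma sum_range_mul' {α : Type*} [AddCommMonoid α] (k m : ℕ) (h : ℕ → α) :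
    ∑ l ∈ range (k * m), h l = ∑ r ∈ range k, ∑ u ∈ range m, h (r + k * u) := by
  rw [sum_comm]
  induction m with
  | zero => simp
  | succ m ih =>
    rw [Nat.mul_succ, sum_range_add, sum_range_succ, ih]
    congr 1
    exact sum_congr rfl fun r _ => by rw [add_comm]

lemma D_mul {m k : ℕ} (hm : 0 < m) (hk : 0 < k) {u : ℕ} (hu : u < m) :
    D m (k * m) (k * u) = if u = 0 then (m : ℂ) else 0 := by
  have hm0 : (m : ℝ) ≠ 0 := by positivity
  have hk0 : (k : ℝ) ≠ 0 := by positivity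
  unfold D
  have h1 : ∀ i ∈ range m, ee (-((i : ℝ) * ((k * u : ℕ) : ℝ) / ((k * m : ℕ) : ℝ))) =
      ee (((-(u : ℤ) : ℤ) : ℝ) * i / m) := by
    intro i _
    congr 1
    push_cast
    field_simp
  rw [sum_congr rfl h1, sum_ee hm]
  by_cases h : u = 0
  · subst h
    simp
  · rw [if_neg, if_neg h]
    rw [dvd_neg]
    intro h2
    have := Int.le_of_dvd (by omega) h2
    omega

lemma parseval {m k : ℕ} (hm : 0 < m) (hk : 0 < k) (r : ℕ) :
    ∑ u ∈ range m, ‖D m (k * m) (r + k * u)‖ ^ 2 = (m : ℝ) ^ 2 := by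
  have hm0 : (m : ℝ) ≠ 0 := by positivity
  have hk0 : (k : ℝ) ≠ 0 := by positivity
  have h1 : ((∑ u ∈ range m, ‖D m (k * m) (r + k * u)‖ ^ 2 : ℝ) : ℂ) = ((m : ℝ) ^ 2 : ℝ) := by
    push_cast
    have h2 : ∀ u ∈ range m, ((‖D m (k * m) (r + k * u)‖ : ℂ)) ^ 2 =
        ∑ i ∈ range m, ∑ i' ∈ range m, ee (((i' : ℝ) - i) * r / (k * m : ℕ)) *
          ee ((((i' : ℤ) - i : ℤ) : ℝ) * u / m) := by
      intro u _
      rw [← Complex.mul_conj']
      unfold D
      rw [map_sum, sum_mul_sum]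
      refine sum_congr rfl fun i _ => sum_congr rfl fun i' _ => ?_
      rw [conj_ee, neg_neg, ← ee_add, ← ee_add]
      congr 1
      push_cast
      field_simp
      ring
    rw [sum_congr rfl h2, sum_comm]
    have h3 : ∀ i ∈ range m, ∑ u ∈ range m, ∑ i' ∈ range m,
        ee (((i' : ℝ) - i) * r / (k * m : ℕ)) * ee ((((i' : ℤ) - i : ℤ) : ℝ) * u / m) = m := by
      intro i hi
      rw [sum_comm, sum_eq_single i]
      · rw [← mul_sum, sum_ee hm]
        simp [ee_zero]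
      · intro i' hi' hne
        rw [← mul_sum, sum_ee hm, if_neg, mul_zero]
        rw [mem_range] at hi hi'
        intro h4
        have h5 := Int.eq_zero_of_abs_lt_dvd h4 (by rw [abs_lt]; constructor <;> omega)
        omega
      · intro h
        exact absurd hi h
    rw [sum_congr rfl h3, sum_const, card_range, nsmul_eq_mul]
    ring
  exact_mod_cast h1

lemma sum_shift {m : ℕ} {φ : ℕ → ℝ} (hφ : ∀ j, φ (j + m) = φ j) (u : ℕ) :
    ∑ j ∈ range m, φ (j + u) = ∑ j ∈ range m, φ j := by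
  induction u with
  | zero => rfl
  | succ u ih =>
    rw [← ih]
    have h1 := sum_range_succ (fun j => φ (j + u)) m
    have h2 := sum_range_succ' (fun j => φ (j + u)) m
    have h3 : φ (m + u) = φ (0 + u) := by
      rw [add_comm m u, hφ, zero_add]
    have h4 : ∑ j ∈ range m, φ (j + (u + 1)) = ∑ j ∈ range m, φ (j + 1 + u) :=
      sum_congr rfl fun j _ => by congr 1; ring
    rw [h4]
    linarith

/-- pointwise form -/
lemma pointwise {A : Finset ℕ} {m k c : ℕ} (hm : 0 < m) (hk : 0 < k)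
    (hA : ∀ a ∈ A, ∀ i < 2 * m - 1, ¬ a ≡ c + i [MOD k * m]) (j : ℕ) :
    (m : ℝ) ^ 2 * ‖f A ((j : ℝ) / m)‖ ≤ ∑ x ∈ Ico 1 k ×ˢ range m,
      ‖D m (k * m) (x.1 + k * x.2)‖ ^ 2 *
        ‖f A (((x.1 + k * (j + x.2) : ℕ) : ℝ) / ((k * m : ℕ) : ℝ))‖ := by
  have hm0 : (m : ℝ) ≠ 0 := by positivity
  have hk0 : (k : ℝ) ≠ 0 := by positivity
  have h := key (Nat.mul_pos hk hm) hA ((j : ℝ) / m)
  rw [sum_range_mul', sum_range_eq_add_Ico _ hk] at h
  have h1 : ∑ u ∈ range m, ee (-((c : ℝ) * ((0 + k * u : ℕ) : ℝ) / ((k * m : ℕ) : ℝ))) *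
      D m (k * m) (0 + k * u) ^ 2 *
        f A ((j : ℝ) / m + ((0 + k * u : ℕ) : ℝ) / ((k * m : ℕ) : ℝ)) =
      (m : ℂ) ^ 2 * f A ((j : ℝ) / m) := by
    rw [sum_eq_single 0]
    · rw [zero_add, D_mul hm hk hm]
      simp [ee_zero]
    · intro u hu hu0
      rw [zero_add, D_mul hm hk (mem_range.mp hu), if_neg hu0]
      simp
    · intro h
      exact absurd (mem_range.mpr hm) h
  rw [h1, add_eq_zero_iff_eq_neg] at h
  have h2 : (m : ℝ) ^ 2 * ‖f A ((j : ℝ) / m)‖ = ‖(m : ℂ) ^ 2 * f A ((j : ℝ) / m)‖ := by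
    rw [norm_mul, norm_pow, Complex.norm_natCast]
  rw [h2, h, norm_neg, sum_product]
  refine (norm_sum_le _ _).trans (sum_le_sum fun r _ => ?_)
  refine (norm_sum_le _ _).trans (sum_le_sum fun u _ => le_of_eq ?_)
  rw [norm_mul, norm_mul, norm_ee, one_mul, norm_pow]
  congr 3
  push_cast
  field_simp
  ring

/-- **The arc lemma.** -/
theorem arc {A : Finset ℕ} {m k c : ℕ} (hm : 0 < m) (hk : 1 < k)
    (hA : ∀ a ∈ A, ∀ i < 2 * m - 1, ¬ a ≡ c + i [MOD k * m]) :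
    ∑ j ∈ range m, ‖f A ((j : ℝ) / m)‖ ^ 4 ≤ ((k : ℝ) - 1) ^ 3 *
      ∑ r ∈ Ico 1 k, ∑ j ∈ range m, ‖f A (((r + k * j : ℕ) : ℝ) / ((k * m : ℕ) : ℝ))‖ ^ 4 := by
  have hk0 : 0 < k := by omega
  have hm1 : (0 : ℝ) < m := by exact_mod_cast hm
  have hk1 : (0 : ℝ) < (k : ℝ) - 1 := by
    have : (1 : ℝ) < k := by exact_mod_cast hk
    linarith
  set w : ℕ × ℕ → ℝ := fun x => ‖D m (k * m) (x.1 + k * x.2)‖ ^ 2 / (((k : ℝ) - 1) * m ^ 2) with hw
  have hw0 : ∀ x, 0 ≤ w x := fun x => by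
    simp only [hw]
    positivity
  have hwr : ∀ r, ∑ u ∈ range m, w (r, u) = 1 / ((k : ℝ) - 1) := by
    intro r
    simp only [hw]
    rw [← sum_div, parseval hm hk0]
    field_simp
  have hw1 : ∑ x ∈ Ico 1 k ×ˢ range m, w x = 1 := by
    rw [sum_product, sum_congr rfl fun r _ => hwr r, sum_const, Nat.card_Ico, nsmul_eq_mul]
    rw [Nat.cast_sub hk.le]
    push_cast
    field_simp
  set φ : ℕ → ℕ → ℝ := fun r j =>
    ‖f A (((r + k * j : ℕ) : ℝ) / ((k * m : ℕ) : ℝ))‖ ^ 4 with hφ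
  have hper : ∀ r j, φ r (j + m) = φ r j := by
    intro r j
    simp only [hφ]
    rw [← f_add_one A (((r + k * j : ℕ) : ℝ) / ((k * m : ℕ) : ℝ))]
    congr 3
    have : ((k * m : ℕ) : ℝ) ≠ 0 := by
      have := Nat.mul_pos hk0 hm
      positivity
    rw [div_add_one this]
    push_cast
    ring
  have h1 : ∀ j ∈ range m, ‖f A ((j : ℝ) / m)‖ ^ 4 ≤
      ((k : ℝ) - 1) ^ 4 * ∑ x ∈ Ico 1 k ×ˢ range m, w x * φ x.1 (j + x.2) := by
    intro j _
    have h2 := pointwise hm hk0 hA j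
    have h3 : ‖f A ((j : ℝ) / m)‖ ≤ ((k : ℝ) - 1) * ∑ x ∈ Ico 1 k ×ˢ range m, w x *
        ‖f A (((x.1 + k * (j + x.2) : ℕ) : ℝ) / ((k * m : ℕ) : ℝ))‖ := by
      have h4 : ((k : ℝ) - 1) * ∑ x ∈ Ico 1 k ×ˢ range m, w x *
          ‖f A (((x.1 + k * (j + x.2) : ℕ) : ℝ) / ((k * m : ℕ) : ℝ))‖ =
          (∑ x ∈ Ico 1 k ×ˢ range m, ‖D m (k * m) (x.1 + k * x.2)‖ ^ 2 *
            ‖f A (((x.1 + k * (j + x.2) : ℕ) : ℝ) / ((k * m : ℕ) : ℝ))‖) / m ^ 2 := by
        rw [mul_sum, sum_div]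
        refine sum_congr rfl fun x _ => ?_
        simp only [hw]
        generalize ‖f A (((x.1 + k * (j + x.2) : ℕ) : ℝ) / ((k * m : ℕ) : ℝ))‖ = y
        field_simp
      rw [h4, le_div_iff₀ (by positivity)]
      linarith
    have h5 := Real.pow_arith_mean_le_arith_mean_pow (Ico 1 k ×ˢ range m) w
      (fun x => ‖f A (((x.1 + k * (j + x.2) : ℕ) : ℝ) / ((k * m : ℕ) : ℝ))‖)
      (fun x _ => hw0 x) hw1 (fun x _ => norm_nonneg _) 4
    refine (pow_le_pow_left₀ (norm_nonneg _) h3 4).trans ?_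
    rw [mul_pow]
    exact mul_le_mul_of_nonneg_left h5 (by positivity)
  refine (sum_le_sum h1).trans (le_of_eq ?_)
  rw [← mul_sum, sum_comm]
  have h6 : ∀ x ∈ Ico 1 k ×ˢ range m, ∑ j ∈ range m, w x * φ x.1 (j + x.2) =
      w x * ∑ j ∈ range m, φ x.1 j := by
    intro x _
    rw [← mul_sum, sum_shift (hper x.1)]
  rw [sum_congr rfl h6, sum_product]
  have h7 : ∀ r ∈ Ico 1 k, ∑ u ∈ range m, w (r, u) * ∑ j ∈ range m, φ r j =
      1 / ((k : ℝ) - 1) * ∑ j ∈ range m, φ r j := by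
    intro r _
    rw [← sum_mul, hwr]
  rw [sum_congr rfl h7, ← mul_sum, ← mul_assoc]
  have h8 : ((k : ℝ) - 1) ^ 4 * (1 / ((k : ℝ) - 1)) = ((k : ℝ) - 1) ^ 3 := by
    field_simp
  rw [h8]

/-- **The arc lemma**, second form. -/
theorem arc_mul {A : Finset ℕ} {m k c : ℕ} (hm : 0 < m) (hk : 1 < k)
    (hA : ∀ a ∈ A, ∀ i < 2 * m - 1, ¬ a ≡ c + i [MOD k * m]) :
    (1 + 1 / ((k : ℝ) - 1) ^ 3) * ∑ j ∈ range m, ‖f A ((j : ℝ) / m)‖ ^ 4 ≤
      ∑ l ∈ range (k * m), ‖f A ((l : ℝ) / ((k * m : ℕ) : ℝ))‖ ^ 4 := by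
  have hk0 : 0 < k := by omega
  have hk1 : (0 : ℝ) < (k : ℝ) - 1 := by
    have : (1 : ℝ) < k := by exact_mod_cast hk
    linarith
  have hm0 : (m : ℝ) ≠ 0 := by positivity
  have hk2 : (k : ℝ) ≠ 0 := by positivity
  have h := arc hm hk hA
  rw [sum_range_mul', sum_range_eq_add_Ico _ hk0]
  have h1 : ∑ u ∈ range m, ‖f A (((0 + k * u : ℕ) : ℝ) / ((k * m : ℕ) : ℝ))‖ ^ 4 =
      ∑ j ∈ range m, ‖f A ((j : ℝ) / m)‖ ^ 4 := by
    refine sum_congr rfl fun u _ => ?_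
    congr 3
    push_cast
    field_simp
    ring
  rw [h1, add_mul, one_mul]
  refine add_le_add le_rfl ?_
  rw [one_div, inv_mul_le_iff₀ (by positivity)]
  exact h

end Pool.Agent.Helper73.MD
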