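import Pool.Agent.Helper73.MD.Arc
import Pool.Agent.Helper38.RC.LS2

/-!
Gaps modulo real numbers: a set which is not null, whose multiples `θ a` avoid an arc of a fixed
length for infinitely many frequencies `θ`, has unbounded representation function.
-/

set_option autoImplicit false

open Finset Real

namespace Pool.Agent.Helper73.MD

open Pool.Agent.Helper25.RC (repF rep below Null mem_below below_subset_range repF_below_le
  not_null_iff)
open Pool.Agent.Helper38.RC (expSum energy_large_sieve)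

lemma expSum_eq (S : Finset ℕ) (t : ℝ) : expSum S t = f S t := by
  unfold f expSum ee
  refine sum_congr rfl fun a _ => ?_
  congr 3
  ring

lemma norm_f_neg (S : Finset ℕ) (t : ℝ) : ‖f S (-t)‖ = ‖f S t‖ := by
  have h : f S (-t) = (starRingEnd ℂ) (f S t) := by
    unfold f
    rw [map_sum]
    refine sum_congr rfl fun a _ => ?_
    rw [conj_ee, mul_neg]
  rw [h, Complex.norm_conj]

lemma ee_add_int (t : ℝ) (n : ℤ) : ee (t + n) = ee t := by
  rw [ee_add, ee_int, mul_one]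

lemma f_add_int (S : Finset ℕ) (t : ℝ) (n : ℤ) : f S (t + n) = f S t := by
  unfold f
  refine sum_congr rfl fun a _ => ?_
  have h : (a : ℝ) * (t + n) = a * t + ((a * n : ℤ) : ℝ) := by
    push_cast
    ring
  rw [h, ee_add_int]

lemma f_fract (S : Finset ℕ) (t : ℝ) : f S (Int.fract t) = f S t := by
  have h : t = Int.fract t + (⌊t⌋ : ℝ) := by rw [add_comm, Int.floor_add_fract]
  conv_rhs => rw [h]
  rw [f_add_int]

/-- distance of `exp(2 π i y)` to one -/
lemma norm_ee_sub_one {y ε : ℝ} (h : ∀ n : ℤ, ε ≤ |y - n|) : 4 * ε ≤ ‖ee y - 1‖ := by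
  set z : ℝ := y - round y with hz
  have h1 : ee y = ee z := by
    have : y = z + (round y : ℝ) := by rw [hz]; ring
    conv_lhs => rw [this]
    rw [ee_add_int]
  have h2 : |z| ≤ 1 / 2 := abs_sub_round y
  have h3 : ε ≤ |z| := h _
  have h4 : ee z = Complex.exp (Complex.I * ((2 * π * z : ℝ) : ℂ)) := by
    unfold ee
    rw [mul_comm]
  rw [h1, h4, Complex.norm_exp_I_mul_ofReal_sub_one]
  have h5 : 2 * π * z / 2 = π * z := by ring
  rw [h5, Real.norm_eq_abs, abs_mul, abs_two]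
  have h6 : |π * z| ≤ π / 2 := by
    rw [abs_mul, abs_of_pos Real.pi_pos]
    nlinarith [Real.pi_pos]
  have h7 := Real.mul_abs_le_abs_sin h6
  rw [abs_mul, abs_of_pos Real.pi_pos] at h7
  have h8 : 2 / π * (π * |z|) = 2 * |z| := by
    field_simp
  rw [h8] at h7
  linarith

lemma geo_bound {y ε : ℝ} (hε : 0 < ε) (h : ∀ n : ℤ, ε ≤ |y - n|) (H : ℕ) :
    ‖∑ n ∈ range H, ee (n * y)‖ ≤ 1 / (2 * ε) := by
  have h1 := norm_ee_sub_one h
  have h2 : 0 < ‖ee y - 1‖ := by linarith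
  have h3 : ee y ≠ 1 := by
    intro h4
    rw [h4, sub_self, norm_zero] at h2
    exact lt_irrefl _ h2
  have h5 : ∑ n ∈ range H, ee (n * y) = (ee y ^ H - 1) / (ee y - 1) := by
    rw [← geom_sum_eq h3]
    exact sum_congr rfl fun n _ => ee_nat_mul n y
  rw [h5, norm_div, div_le_div_iff₀ h2 (by positivity)]
  have h6 : ‖ee y ^ H - 1‖ ≤ 2 := by
    refine (norm_sub_le _ _).trans ?_
    rw [norm_pow, norm_ee, one_pow, norm_one]
    norm_num
  nlinarith

/-- a gap gives a large Fourier coefficient -/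
lemma freq (S : Finset ℕ) {θ β ε : ℝ} (hε : 0 < ε) {H : ℕ} (hH : 1 / ε ^ 2 ≤ H)
    {X : Finset ℕ} (hXS : ∀ a ∈ S, a ∉ X → ∀ n : ℤ, ε ≤ |a * θ - β - n|)
    (hX : (2 : ℝ) * H * #X < #S) :
    ∃ h ∈ Ico 1 H, (#S : ℝ) / (4 * H) ≤ ‖f S (h * θ)‖ := by
  classical
  by_contra hcon
  push Not at hcon
  have hH0 : (0 : ℝ) < H := lt_of_lt_of_le (by positivity) hH
  set G : ℕ → ℂ := fun a => ∑ n ∈ range H, ee (n * (a * θ - β)) with hG
  have e1 : ((∑ a ∈ S, ‖G a‖ ^ 2 : ℝ) : ℂ) = ∑ n ∈ range H, ∑ n' ∈ range H,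
      ee (-(((n : ℝ) - n') * β)) * f S (((n : ℝ) - n') * θ) := by
    push_cast
    have h2 : ∀ a ∈ S, ((‖G a‖ : ℂ)) ^ 2 = ∑ n ∈ range H, ∑ n' ∈ range H,
        ee (-(((n : ℝ) - n') * β)) * ee (a * (((n : ℝ) - n') * θ)) := by
      intro a _
      rw [← Complex.mul_conj']
      simp only [hG]
      rw [map_sum, sum_mul_sum]
      refine sum_congr rfl fun n _ => sum_congr rfl fun n' _ => ?_
      rw [conj_ee, ← ee_add, ← ee_add]
      congr 1
      ring
    rw [sum_congr rfl h2, sum_comm]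
    refine sum_congr rfl fun n _ => ?_
    rw [sum_comm]
    refine sum_congr rfl fun n' _ => ?_
    unfold f
    rw [mul_sum]
  -- lower bound
  have e2 : ∑ n ∈ range H, ∑ n' ∈ range H, (if n = n' then (#S : ℂ) else 0) = H * #S := by
    rw [sum_congr rfl (g := fun _ => (#S : ℂ))]
    · simp
    · intro n hn
      rw [sum_ite_eq, if_pos hn]
  have hS0 : (0 : ℝ) < #S := lt_of_le_of_lt (by positivity) hX
  have e3 : ‖((∑ a ∈ S, ‖G a‖ ^ 2 : ℝ) : ℂ) - H * #S‖ ≤ H * (H * (#S / (4 * H))) := by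
    rw [e1, ← e2, ← sum_sub_distrib]
    have h3 : ∀ n ∈ range H, ‖∑ n' ∈ range H, ee (-(((n : ℝ) - n') * β)) *
        f S (((n : ℝ) - n') * θ) - ∑ n' ∈ range H, (if n = n' then (#S : ℂ) else 0)‖ ≤
        H * (#S / (4 * H)) := by
      intro n hn
      rw [← sum_sub_distrib]
      refine (norm_sum_le _ _).trans ?_
      have h4 : ∀ n' ∈ range H, ‖ee (-(((n : ℝ) - n') * β)) * f S (((n : ℝ) - n') * θ) -
          (if n = n' then (#S : ℂ) else 0)‖ ≤ #S / (4 * H) := by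
        intro n' hn'
        rw [mem_range] at hn hn'
        rcases lt_trichotomy n n' with h | h | h
        · rw [if_neg h.ne, sub_zero, norm_mul, norm_ee, one_mul]
          have h5 : ((n : ℝ) - n') * θ = -(((n' - n : ℕ) : ℝ) * θ) := by
            rw [Nat.cast_sub h.le]
            ring
          rw [h5, norm_f_neg]
          exact (hcon (n' - n) (mem_Ico.mpr (by omega))).le
        · subst h
          rw [if_pos rfl, sub_self, zero_mul, zero_mul, neg_zero, ee_zero, f_zero, one_mul,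
            sub_self, norm_zero]
          positivity
        · rw [if_neg h.ne', sub_zero, norm_mul, norm_ee, one_mul]
          have h5 : ((n : ℝ) - n') * θ = ((n - n' : ℕ) : ℝ) * θ := by
            rw [Nat.cast_sub h.le]
          rw [h5]
          exact (hcon (n - n') (mem_Ico.mpr (by omega))).le
      refine (sum_le_sum h4).trans (le_of_eq ?_)
      rw [sum_const, card_range, nsmul_eq_mul]
    refine (norm_sum_le _ _).trans ((sum_le_sum h3).trans (le_of_eq ?_))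
    rw [sum_const, card_range, nsmul_eq_mul]
  have e4 : (H : ℝ) * (H * (#S / (4 * H))) = H * #S / 4 := by
    field_simp
  have e5 : (3 / 4 : ℝ) * (H * #S) ≤ ∑ a ∈ S, ‖G a‖ ^ 2 := by
    have h6 : ((∑ a ∈ S, ‖G a‖ ^ 2 : ℝ) : ℂ) - H * #S =
        ((∑ a ∈ S, ‖G a‖ ^ 2 - H * #S : ℝ) : ℂ) := by
      push_cast
      ring
    rw [h6, Complex.norm_real, Real.norm_eq_abs, e4, abs_le] at e3
    linarith [e3.1]
  -- upper bound
  have e6 : ∑ a ∈ S, ‖G a‖ ^ 2 ≤ #S * (H / 4) + #X * H ^ 2 := by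
    have h7 : ∀ a ∈ S, ‖G a‖ ^ 2 ≤ H / 4 + if a ∈ X then (H : ℝ) ^ 2 else 0 := by
      intro a ha
      split_ifs with hx
      · have h8 : ‖G a‖ ≤ H := by
          refine (norm_sum_le _ _).trans ?_
          simp [norm_ee]
        have : ‖G a‖ ^ 2 ≤ (H : ℝ) ^ 2 := pow_le_pow_left₀ (norm_nonneg _) h8 2
        linarith
      · have h8 := geo_bound hε (hXS a ha hx) H
        have h9 : ‖G a‖ ^ 2 ≤ (1 / (2 * ε)) ^ 2 := pow_le_pow_left₀ (norm_nonneg _) h8 2
        have h10 : (1 / (2 * ε)) ^ 2 = (1 / ε ^ 2) / 4 := by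
          field_simp
          norm_num
        rw [h10] at h9
        linarith
    refine (sum_le_sum h7).trans ?_
    rw [sum_add_distrib, sum_const, nsmul_eq_mul, ← sum_filter, sum_const, nsmul_eq_mul]
    have h11 : (#(S.filter (· ∈ X)) : ℝ) ≤ #X := by
      exact_mod_cast card_le_card fun a ha => (mem_filter.mp ha).2
    have : (#(S.filter (· ∈ X)) : ℝ) * (H : ℝ) ^ 2 ≤ #X * H ^ 2 :=
      mul_le_mul_of_nonneg_right h11 (by positivity)
    linarith
  have e7 : (1 / 2 : ℝ) * (H * #S) ≤ #X * H ^ 2 := by nlinarith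
  have e8 : (#S : ℝ) ≤ 2 * H * #X := by
    have h12 : H * (#S : ℝ) ≤ H * (2 * H * #X) := by nlinarith
    exact le_of_mul_le_mul_left h12 hH0
  linarith

/-- distinct frequencies -/
lemma exists_distinct {Θ : Set ℝ} (hΘ : Θ.Infinite) (h01 : ∀ θ ∈ Θ, 0 ≤ θ ∧ θ < 1) (H N : ℕ) :
    ∃ F : Finset ℝ, #F = N ∧ (∀ θ ∈ F, θ ∈ Θ) ∧ ∀ θ ∈ F, ∀ θ' ∈ F, θ ≠ θ' →
      ∀ h ∈ Ico 1 H, ∀ h' ∈ Ico 1 H, Int.fract ((h : ℝ) * θ) ≠ Int.fract ((h' : ℝ) * θ') := by
  classical
  induction N with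
  | zero => exact ⟨∅, by simp, by simp, by simp⟩
  | succ N ih =>
    obtain ⟨F, hF, hFΘ, hF2⟩ := ih
    set B : Finset ℝ := (Ico 1 H ×ˢ Ico 1 H ×ˢ F ×ˢ Icc (-(H : ℤ)) H).image
      (fun x => ((x.2.1 : ℝ) * x.2.2.1 + (x.2.2.2 : ℤ)) / x.1) ∪ F with hB
    obtain ⟨θ, hθ, hθB⟩ := hΘ.exists_notMem_finset B
    have hθF : θ ∉ F := fun h => hθB (mem_union_right _ h)
    have key : ∀ θ' ∈ F, ∀ h ∈ Ico 1 H, ∀ h' ∈ Ico 1 H,
        Int.fract ((h : ℝ) * θ) ≠ Int.fract ((h' : ℝ) * θ') := by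
      intro θ' hθ' h hh h' hh' heq
      apply hθB
      rw [hB]
      refine mem_union_left _ (mem_image.mpr ⟨(h, h', θ', ⌊(h : ℝ) * θ⌋ - ⌊(h' : ℝ) * θ'⌋), ?_, ?_⟩)
      · rw [mem_product, mem_product, mem_product]
        refine ⟨hh, hh', hθ', ?_⟩
        rw [mem_Ico] at hh hh'
        have a1 := h01 θ hθ
        have a2 := h01 θ' (hFΘ θ' hθ')
        have hhr : (h : ℝ) < H := by exact_mod_cast hh.2
        have hhr' : (h' : ℝ) < H := by exact_mod_cast hh'.2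
        have b0 : (0 : ℝ) ≤ h := Nat.cast_nonneg _
        have b0' : (0 : ℝ) ≤ h' := Nat.cast_nonneg _
        have b1 : 0 ≤ ⌊(h : ℝ) * θ⌋ := Int.floor_nonneg.mpr (mul_nonneg b0 a1.1)
        have b2 : 0 ≤ ⌊(h' : ℝ) * θ'⌋ := Int.floor_nonneg.mpr (mul_nonneg b0' a2.1)
        have b3 : ⌊(h : ℝ) * θ⌋ < H := by
          rw [Int.floor_lt]
          push_cast
          nlinarith
        have b4 : ⌊(h' : ℝ) * θ'⌋ < H := by
          rw [Int.floor_lt]
          push_cast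
          nlinarith
        simp only [mem_Icc]
        omega
      · simp only []
        have hh0 : (h : ℝ) ≠ 0 := by
          rw [mem_Ico] at hh
          have : 0 < h := hh.1
          positivity
        rw [div_eq_iff hh0]
        unfold Int.fract at heq
        push_cast
        linarith
    refine ⟨insert θ F, by rw [card_insert_of_notMem hθF, hF], ?_, ?_⟩
    · intro x hx
      rcases mem_insert.mp hx with rfl | hx
      · exact hθ
      · exact hFΘ x hx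
    · intro x hx y hy hxy h hh h' hh'
      rcases mem_insert.mp hx with hx1 | hx
      · rcases mem_insert.mp hy with hy1 | hy
        · exact absurd (hx1.trans hy1.symm) hxy
        · rw [hx1]
          exact key y hy h hh h' hh'
      · rcases mem_insert.mp hy with hy1 | hy
        · rw [hy1]
          exact (key x hx h' hh' h hh).symm
        · exact hF2 x hx y hy hxy h hh h' hh'

open Filter in
/-- **Gaps modulo real numbers.** -/
theorem gaps {A : Set ℕ} (hA : ¬ Null A) {ε : ℝ} (hε : 0 < ε)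
    (hG : {θ : ℝ | 0 ≤ θ ∧ θ < 1 ∧ ∃ β : ℝ,
      Null {a | a ∈ A ∧ ∃ n : ℤ, |a * θ - β - n| < ε}}.Infinite) (K : ℝ) :
    ∃ᶠ x : ℕ in atTop, K * x < ∑ n ∈ range x, (rep A n : ℝ) ^ 2 := by
  classical
  by_contra hcon
  rw [not_frequently] at hcon
  have hK : ∀ᶠ x : ℕ in atTop, ∑ n ∈ range x, (rep A n : ℝ) ^ 2 ≤ K * x :=
    hcon.mono fun x hx => not_lt.mp hx
  obtain ⟨δ, hδ, hfx⟩ := not_null_iff.mp hA
  obtain ⟨H, hH⟩ := exists_nat_ge (1 / ε ^ 2)
  have hH0 : (0 : ℝ) < H := lt_of_lt_of_le (by positivity) hH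
  obtain ⟨N, hN⟩ := exists_nat_gt (106 * K / (δ / (4 * H)) ^ 4)
  obtain ⟨F, hF, hFΘ, hF2⟩ := exists_distinct hG (fun θ hθ => ⟨hθ.1, hθ.2.1⟩) H N
  choose! β hβ using fun θ (hθ : θ ∈ F) => (hFΘ θ hθ).2.2
  have hE1 : ∀ᶠ x : ℕ in atTop, ∀ θ ∈ F,
      (#(below {a | a ∈ A ∧ ∃ n : ℤ, |a * θ - β θ - n| < ε} x) : ℝ) ≤ δ / (4 * H) * √x := by
    rw [eventually_all_finset]
    intro θ hθ
    exact hβ θ hθ _ (by positivity)
  set V : Finset ℝ := (Ico 1 H ×ˢ F).image (fun x => Int.fract ((x.1 : ℝ) * x.2)) with hV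
  have hE2 : ∀ᶠ x : ℕ in atTop, ∀ s ∈ V, ∀ t ∈ V, s ≠ t → 1 / (x : ℝ) ≤ |s - t| := by
    rw [eventually_all_finset]
    intro s _
    rw [eventually_all_finset]
    intro t _
    by_cases hst : s = t
    · exact Eventually.of_forall fun x h => absurd hst h
    · have h1 : 0 < |s - t| := abs_pos.mpr (sub_ne_zero.mpr hst)
      have h2 : Tendsto (fun x : ℕ => 1 / (x : ℝ)) atTop (nhds 0) :=
        tendsto_one_div_atTop_nhds_zero_nat
      filter_upwards [h2.eventually (eventually_le_nhds h1)] with x hx _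
      exact hx
  have ht : Tendsto (fun x : ℕ => 2 * x) atTop atTop :=
    tendsto_atTop_mono (fun x => by show x ≤ 2 * x; omega) tendsto_id
  obtain ⟨x, hxT, hx1, hx2, hx3, hx4⟩ := (hfx.and_eventually (hE1.and
    (hE2.and ((ht.eventually hK).and (eventually_ge_atTop 1))))).exists
  have hxr : (1 : ℝ) ≤ x := by exact_mod_cast hx4
  have hsx : 0 < √(x : ℝ) := Real.sqrt_pos.2 (by linarith)
  set S : Finset ℕ := below A x with hS
  have hSx : S ⊆ range x := below_subset_range A x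
  have hfreq : ∀ θ ∈ F, ∃ h ∈ Ico 1 H, (#S : ℝ) / (4 * H) ≤ ‖f S (h * θ)‖ := by
    intro θ hθ
    refine freq S (β := β θ) hε hH
      (X := below {a | a ∈ A ∧ ∃ n : ℤ, |a * θ - β θ - n| < ε} x) ?_ ?_
    · intro a ha hnot n
      by_contra h
      push Not at h
      rw [hS, mem_below] at ha
      exact hnot (mem_below.mpr ⟨ha.1, ha.2, n, h⟩)
    · have h1 := hx1 θ hθ
      calc (2 : ℝ) * H * #(below {a | a ∈ A ∧ ∃ n : ℤ, |a * θ - β θ - n| < ε} x) ≤
            2 * H * (δ / (4 * H) * √x) := by gcongr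
        _ = δ / 2 * √x := by field_simp; ring
        _ < δ * √x := by nlinarith
        _ < #S := hxT
  choose! h hh hhf using hfreq
  have hinj : Set.InjOn (fun θ => Int.fract ((h θ : ℝ) * θ)) (F : Set ℝ) := by
    intro θ hθ θ' hθ' heq
    by_contra hne
    exact hF2 θ hθ θ' hθ' hne (h θ) (hh θ hθ) (h θ') (hh θ' hθ') heq
  have hls := energy_large_sieve S (by omega) hSx
    (F.image fun θ => Int.fract ((h θ : ℝ) * θ)) ?_ ?_
  · rw [sum_image hinj] at hls
    have h1 : ∀ θ ∈ F, ((#S : ℝ) / (4 * H)) ^ 4 ≤ ‖expSum S (Int.fract ((h θ : ℝ) * θ))‖ ^ 4 := by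
      intro θ hθ
      rw [expSum_eq, f_fract]
      exact pow_le_pow_left₀ (by positivity) (hhf θ hθ) 4
    have h2 := (sum_le_sum h1).trans hls
    rw [sum_const, hF, nsmul_eq_mul] at h2
    have h3 : ∑ n ∈ range (2 * x), ((repF S n : ℕ) : ℝ) ^ 2 ≤ K * ((2 * x : ℕ) : ℝ) := by
      refine le_trans (sum_le_sum fun n _ => ?_) hx3
      have : ((repF S n : ℕ) : ℝ) ≤ rep A n := by exact_mod_cast repF_below_le A x n
      gcongr
    have h4 : (δ * √x) ^ 4 = δ ^ 4 * (x : ℝ) ^ 2 := by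
      have : √(x : ℝ) ^ 4 = (x : ℝ) ^ 2 := by
        rw [show (4 : ℕ) = 2 * 2 from rfl, pow_mul, Real.sq_sqrt (by positivity)]
      rw [mul_pow, this]
    have h5 : (N : ℝ) * (δ * √x / (4 * H)) ^ 4 ≤ 106 * K * (x : ℝ) ^ 2 := by
      calc (N : ℝ) * (δ * √x / (4 * H)) ^ 4 ≤ N * ((#S : ℝ) / (4 * H)) ^ 4 := by gcongr
        _ ≤ 53 * x * ∑ n ∈ range (2 * x), ((repF S n : ℕ) : ℝ) ^ 2 := h2
        _ ≤ 53 * x * (K * ((2 * x : ℕ) : ℝ)) := by gcongr
        _ = 106 * K * (x : ℝ) ^ 2 := by push_cast; ring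
    have h6 : (δ * √x / (4 * H)) ^ 4 = (δ / (4 * H)) ^ 4 * (x : ℝ) ^ 2 := by
      rw [div_pow, h4, div_pow]
      ring
    rw [h6, ← mul_assoc] at h5
    have h7 : (N : ℝ) * (δ / (4 * H)) ^ 4 ≤ 106 * K :=
      le_of_mul_le_mul_right h5 (by positivity)
    have h8 : (106 * K : ℝ) < N * (δ / (4 * H)) ^ 4 := (div_lt_iff₀ (by positivity)).mp hN
    linarith
  · intro t ht'
    obtain ⟨θ, _, rfl⟩ := mem_image.mp ht'
    exact ⟨Int.fract_nonneg _, (Int.fract_lt_one _).le⟩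
  · intro s hs t ht' hst
    obtain ⟨θ, hθ, rfl⟩ := mem_image.mp hs
    obtain ⟨θ', hθ', rfl⟩ := mem_image.mp ht'
    exact hx2 _ (mem_image.mpr ⟨(h θ, θ), mem_product.mpr ⟨hh θ hθ, hθ⟩, rfl⟩) _
      (mem_image.mpr ⟨(h θ', θ'), mem_product.mpr ⟨hh θ' hθ', hθ'⟩, rfl⟩) hst

open Filter in
/-- **Gaps modulo real numbers**, the representation function is unbounded. -/
theorem gaps_rep {A : Set ℕ} (hA : ¬ Null A) {ε : ℝ} (hε : 0 < ε)
    (hG : {θ : ℝ | 0 ≤ θ ∧ θ < 1 ∧ ∃ β : ℝ,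
      Null {a | a ∈ A ∧ ∃ n : ℤ, |a * θ - β - n| < ε}}.Infinite) (g : ℕ) :
    ∃ᶠ n : ℕ in atTop, g ≤ rep A n := by
  by_contra hcon
  rw [not_frequently] at hcon
  obtain ⟨n₀, hn₀⟩ := eventually_atTop.mp hcon
  set C : ℝ := ∑ n ∈ range n₀, (rep A n : ℝ) ^ 2 with hC
  have hC0 : 0 ≤ C := sum_nonneg fun _ _ => sq_nonneg _
  obtain ⟨x, hx, hx1⟩ := ((gaps hA hε hG (C + (g : ℝ) ^ 2)).and_eventually
    (eventually_ge_atTop (n₀ + 1))).exists
  have h1 : ∑ n ∈ range x, (rep A n : ℝ) ^ 2 ≤ C + x * (g : ℝ) ^ 2 := by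
    rw [← sum_range_add_sum_Ico _ (show n₀ ≤ x by omega)]
    refine add_le_add le_rfl ?_
    have h2 : ∀ n ∈ Ico n₀ x, (rep A n : ℝ) ^ 2 ≤ (g : ℝ) ^ 2 := by
      intro n hn
      have := hn₀ n (mem_Ico.mp hn).1
      have h3 : (rep A n : ℝ) ≤ g := by exact_mod_cast (not_le.mp this).le
      gcongr
    refine (sum_le_sum h2).trans ?_
    rw [sum_const, Nat.card_Ico, nsmul_eq_mul]
    have : ((x - n₀ : ℕ) : ℝ) ≤ x := by exact_mod_cast Nat.sub_le _ _
    gcongr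
  have hxr : (1 : ℝ) ≤ x := by exact_mod_cast (by omega : 1 ≤ x)
  nlinarith

end Pool.Agent.Helper73.MD
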