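import Pool.Agent.Helper81.RG.RG
import Pool.Agent.Helper67.MD.Power
import Pool.Agent.Helper73.MD.Gap

/-! MP_12a1af_nt: the Erdos-Turan problem for sets with gaps modulo real numbers. -/

set_option autoImplicit false

namespace Pool.Agent.Results.MP_12a1af_nt.GapSets

open Finset Filter

open Classical in
/-- the number of ordered pairs of elements of `A` with sum `n` -/
noncomputable def rep (A : Set ℕ) (n : ℕ) : ℕ := #{p ∈ antidiagonal n | p.1 ∈ A ∧ p.2 ∈ A}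

open Classical in
/-- the number of elements of `A` below `x` -/
noncomputable def count (A : Set ℕ) (x : ℕ) : ℕ := #{n ∈ range x | n ∈ A}

/-- `A` has `o(√x)` elements below `x` -/
def Null (A : Set ℕ) : Prop := ∀ ε : ℝ, 0 < ε → ∀ᶠ x : ℕ in atTop, (count A x : ℝ) ≤ ε * √x

open Classical in
/-- the number of `j < log_2 x` for which there is a real number `M`, `2^j ≤ M < 2^(j+1)`, such that
the numbers `a / M` modulo one, `a ∈ A`, `M ≤ a < x`, avoid an interval of length `ε` -/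
noncomputable def gaps (A : Set ℕ) (ε : ℝ) (x : ℕ) : ℕ :=
  #{j ∈ range (Nat.log 2 x) | ∃ M : ℝ, (2 : ℝ) ^ j ≤ M ∧ M < 2 ^ (j + 1) ∧ ∃ β : ℝ,
    ∀ a ∈ A, M ≤ (a : ℝ) → a < x → ε ≤ Int.fract ((a : ℝ) / M - β)}

theorem gaps_null {A : Set ℕ} (hA : ¬ Null A) {ε : ℝ} (hε : 0 < ε)
    (hG : {α : ℝ | 0 ≤ α ∧ α < 1 ∧ ∃ β : ℝ,
      Null {n | n ∈ A ∧ Int.fract (α * n - β) < ε}}.Infinite) (K : ℝ) :
    ∃ᶠ x : ℕ in atTop, K * x < ∑ n ∈ range x, (rep A n : ℝ) ^ 2 := by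
  refine Pool.Agent.Helper73.MD.gaps (A := A) hA (ε := ε / 2) (by positivity) ?_ K
  refine hG.mono ?_
  rintro α ⟨h0, h1, β, hβ⟩
  refine ⟨h0, h1, β + ε / 2, ?_⟩
  refine Pool.Agent.Helper25.RC.Null.mono (B := {n | n ∈ A ∧ Int.fract (α * n - β) < ε}) hβ ?_
  rintro a ⟨haA, n, hn⟩
  refine ⟨haA, ?_⟩
  rcases lt_or_ge 1 ε with h | h
  · exact (Int.fract_lt_one _).trans h
  · rw [abs_lt] at hn
    have h2 : ⌊α * a - β⌋ = n := by
      rw [Int.floor_eq_iff]
      constructor <;> linarith [hn.1, hn.2]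
    unfold Int.fract
    rw [h2]
    linarith [hn.2]

/-- **Sets with gaps modulo real numbers.** For `0 < ε ≤ 1`: the additive energy of `A ∩ [0, x)` is at
least the trivial bound times an exponential in the number of dyadic scales `[2^j, 2^(j+1))`, `2^j < x`,
which contain a real `M` modulo which `A ∩ [M, x)` avoids an interval of length `ε M`; so if these
are a positive proportion of the scales and `A` is not much thinner than the squares, `r_A(n) ≥ n^c`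
for infinitely many `n`; and if `A` is not null but avoids, up to null sets, intervals of length `ε`
modulo one after multiplication by infinitely many `α`, then the mean square of `r_A` is
unbounded. -/
theorem result {ε : ℝ} (hε : 0 < ε) (hε1 : ε ≤ 1) :
    (∃ c : ℝ, 0 < c ∧ ∃ C : ℝ, ∀ (A : Set ℕ) (x : ℕ), 1 ≤ x →
      (count A x : ℝ) ^ 4 * (1 + c) ^ gaps A ε x ≤
        C * x * ∑ n ∈ range (2 * x), (rep A n : ℝ) ^ 2) ∧
    (∀ ρ : ℝ, 0 < ρ → ∃ c : ℝ, 0 < c ∧ ∀ A : Set ℕ,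
      (∃ᶠ x : ℕ in atTop, ρ * Real.log x ≤ gaps A ε x ∧ (x : ℝ) ^ (1 / 2 - c) ≤ count A x) →
      ∃ᶠ n : ℕ in atTop, (n : ℝ) ^ c ≤ rep A n) ∧
    ∀ A : Set ℕ, ¬ Null A →
      {α : ℝ | 0 ≤ α ∧ α < 1 ∧ ∃ β : ℝ,
        Null {n | n ∈ A ∧ Int.fract (α * n - β) < ε}}.Infinite →
      ∀ K : ℝ, ∃ᶠ x : ℕ in atTop, K * x < ∑ n ∈ range x, (rep A n : ℝ) ^ 2 := by
  obtain ⟨c, hc, C, h⟩ := Pool.Agent.Helper48.RG.ii
    (fun b hb hb2 => Pool.Agent.Helper81.RG.rgfin hb hb2) ε hε hε1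
  refine ⟨⟨c, hc, C, h⟩, fun ρ hρ => ?_, fun A hA hG K => gaps_null hA hε hG K⟩
  exact Pool.Agent.Helper67.MD.power_of_gaps hc hρ h

end Pool.Agent.Results.MP_12a1af_nt.GapSets
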