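import Pool.Agent.Helper48.MD.Blocks
import Pool.Agent.Helper25.RC.Defs

/-!
Sets whose elements miss a block of digits at many positions: the energy is larger than the trivial
bound by a power of a constant greater than one.
-/

set_option autoImplicit false

open Finset Real

namespace Pool.Agent.Helper73.MD

open Pool.Agent.Helper25.RC (repF rep below mem_below)

lemma root {X : ℝ} (hX : 0 ≤ X) : √(√X) ^ 4 = X := by
  rw [show (4 : ℕ) = 2 * 2 from rfl, pow_mul, Real.sq_sqrt (Real.sqrt_nonneg _),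
    Real.sq_sqrt hX]

lemma repF_le_rep {A : Set ℕ} {S : Finset ℕ} (hS : ∀ a ∈ S, a ∈ A) (n : ℕ) :
    repF S n ≤ rep A n := by
  classical
  unfold repF rep
  refine card_le_card ?_
  intro p hp
  rw [mem_filter, mem_product] at hp
  rw [mem_filter, HasAntidiagonal.mem_antidiagonal]
  exact ⟨hp.2, hS _ hp.1.1, hS _ hp.1.2⟩

lemma energy_le {A : Set ℕ} {x : ℕ} {S : Finset ℕ} (hS : S ⊆ below A x) (M : ℕ) :
    ∑ k ∈ range M, (repF S k : ℝ) ^ 2 ≤ ∑ k ∈ range (2 * x), (rep A k : ℝ) ^ 2 := by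
  classical
  have h1 : ∑ k ∈ range M, (repF S k : ℝ) ^ 2 ≤ ∑ k ∈ range (2 * x + M), (repF S k : ℝ) ^ 2 :=
    sum_le_sum_of_subset_of_nonneg (range_subset_range.mpr (by omega))
      fun _ _ _ => sq_nonneg _
  have h2 : ∑ k ∈ range (2 * x), (repF S k : ℝ) ^ 2 =
      ∑ k ∈ range (2 * x + M), (repF S k : ℝ) ^ 2 := by
    refine sum_subset (range_subset_range.mpr (by omega)) fun k _ hk => ?_
    have h3 : repF S k = 0 := by
      unfold repF
      rw [card_eq_zero, filter_eq_empty_iff]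
      intro p hp hpk
      rw [mem_product] at hp
      have h4 := (mem_below.mp (hS hp.1)).1
      have h5 := (mem_below.mp (hS hp.2)).1
      rw [mem_range] at hk
      omega
    rw [h3]
    simp
  rw [← h2] at h1
  refine h1.trans (sum_le_sum fun k _ => ?_)
  have h6 : (repF S k : ℝ) ≤ rep A k := by
    exact_mod_cast repF_le_rep (fun a ha => (mem_below.mp (hS ha)).2) k
  gcongr

open Classical in
/-- the number of useful positions -/
noncomputable def cnt (P : Set ℕ) (h n : ℕ) : ℕ := #{p ∈ range n | p ∈ P ∧ 1 ≤ p ∧ p + h ≤ n - 1}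

lemma cnt_succ (P : Set ℕ) (h n : ℕ) : cnt P h (n + 1) ≤ cnt P h n + 1 := by
  classical
  unfold cnt
  have h1 : ({p ∈ range (n + 1) | p ∈ P ∧ 1 ≤ p ∧ p + h ≤ n + 1 - 1} : Finset ℕ) ⊆
      insert (n - h) {p ∈ range n | p ∈ P ∧ 1 ≤ p ∧ p + h ≤ n - 1} := by
    intro p hp
    rw [mem_filter, mem_range] at hp
    rw [mem_insert, mem_filter, mem_range]
    obtain ⟨hp1, hp2, hp3, hp4⟩ := hp
    by_cases hpn : p + h = n
    · left; omega
    · right; exact ⟨by omega, hp2, hp3, by omega⟩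
  exact (card_le_card h1).trans (card_insert_le _ _)

open Classical in
lemma cnt_ge (P : Set ℕ) {h : ℕ} (hh : 1 ≤ h) (L : ℕ) :
    #{p ∈ range L | p ∈ P} ≤ cnt P h (L + 1) + h := by
  unfold cnt
  have h1 : ({p ∈ range L | p ∈ P} : Finset ℕ) ⊆
      {p ∈ range (L + 1) | p ∈ P ∧ 1 ≤ p ∧ p + h ≤ L + 1 - 1} ∪
        insert 0 (Ico (L - h + 1) L) := by
    intro p hp
    rw [mem_filter, mem_range] at hp
    rw [mem_union, mem_filter, mem_range, mem_insert, mem_Ico]
    by_cases h0 : p = 0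
    · right; left; exact h0
    · by_cases h2 : p + h ≤ L
      · left; exact ⟨by omega, hp.2, by omega, by omega⟩
      · right; right; omega
  have h2 : #(insert 0 (Ico (L - h + 1) L)) ≤ h := by
    refine (card_insert_le _ _).trans ?_
    rw [Nat.card_Ico]
    omega
  exact (card_le_card h1).trans ((card_union_le _ _).trans (Nat.add_le_add_left h2 _))

lemma gain_bounds {b h : ℕ} (hb : 2 ≤ b) (hh : 1 ≤ h) :
    (1 : ℝ) ≤ 1 + 1 / ((b : ℝ) ^ (h + 1) - 1) ^ 3 ∧
      1 + 1 / ((b : ℝ) ^ (h + 1) - 1) ^ 3 ≤ 28 / 27 := by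
  have hb' : (2 : ℝ) ≤ b := by exact_mod_cast hb
  have h1 : (4 : ℝ) ≤ (b : ℝ) ^ (h + 1) := by
    calc (4 : ℝ) = 2 ^ 2 := by norm_num
      _ ≤ (b : ℝ) ^ 2 := by gcongr
      _ ≤ (b : ℝ) ^ (h + 1) := pow_le_pow_right₀ (by linarith) (by omega)
  have h2 : (3 : ℝ) ≤ (b : ℝ) ^ (h + 1) - 1 := by linarith
  have h3 : (27 : ℝ) ≤ ((b : ℝ) ^ (h + 1) - 1) ^ 3 := by
    calc (27 : ℝ) = 3 ^ 3 := by norm_num
      _ ≤ _ := by gcongr
  have h4 : 1 / ((b : ℝ) ^ (h + 1) - 1) ^ 3 ≤ 1 / 27 := by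
    gcongr
  have h5 : 0 ≤ 1 / ((b : ℝ) ^ (h + 1) - 1) ^ 3 := by positivity
  constructor <;> linarith

open Classical in
/-- **Missing blocks of digits.** Let `b ≥ 2`, `h ≥ 1`. If for each position `p ∈ P` there is a block
of `h` digits (with value `w p`) which does not occur at position `p`, below the leading digit, in
any `a ∈ A`, then the additive energy of `A ∩ [0, x)` exceeds the trivial bound by a factor
`(1 + η) ^ (J / (h + 1))`, with `J` the number of positions of `P` below `log_b x`. -/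
theorem main {b h : ℕ} (hb : 2 ≤ b) (hh : 1 ≤ h) (P : Set ℕ) (w : ℕ → ℕ)
    (hw : ∀ p ∈ P, w p < b ^ h) {A : Set ℕ}
    (hA : ∀ a ∈ A, ∀ p ∈ P, b ^ (p + h) ≤ a → a / b ^ p % b ^ h ≠ w p) {x : ℕ} (hx : 1 ≤ x) :
    (#(below A x) : ℝ) ^ 4 * (1 + 1 / ((b : ℝ) ^ (h + 1) - 1) ^ 3) ^
        (#{p ∈ range (Nat.log b x) | p ∈ P} / (h + 1)) ≤
      25000 * b * x * ∑ n ∈ range (2 * x), (rep A n : ℝ) ^ 2 := by
  obtain ⟨hg1, hg2⟩ := gain_bounds hb hh
  set g : ℝ := 1 + 1 / ((b : ℝ) ^ (h + 1) - 1) ^ 3 with hg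
  set E : ℝ := ∑ n ∈ range (2 * x), (rep A n : ℝ) ^ 2 with hE
  have hg0 : 0 < g := by linarith
  have hE0 : 0 ≤ E := sum_nonneg fun _ _ => sq_nonneg _
  have hb' : (2 : ℝ) ≤ b := by exact_mod_cast hb
  have hb0 : (0 : ℝ) < b := by linarith
  set u : ℕ → ℝ := fun n => (b : ℝ) ^ n / g ^ (cnt P h n / (h + 1)) with hu
  have hu0 : ∀ n, 0 < u n := fun n => by simp only [hu]; positivity
  set B : ℕ → ℝ := fun n => √(√(3 * E * u n)) with hB
  have hB0 : ∀ n, 0 ≤ B n := fun n => Real.sqrt_nonneg _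
  have hB4 : ∀ n, B n ^ 4 = 3 * E * u n := fun n => root (mul_nonneg (by linarith) (hu0 n).le)
  -- growth
  have hustep : ∀ n, u n ≤ (7 / 8) ^ 4 * u (n + 1) := by
    intro n
    simp only [hu]
    have h1 : cnt P h (n + 1) / (h + 1) ≤ cnt P h n / (h + 1) + 1 := by
      rw [← Nat.add_div_right _ (by omega)]
      exact Nat.div_le_div_right ((cnt_succ P h n).trans (by omega))
    have h2 : g ^ (cnt P h (n + 1) / (h + 1)) ≤ g * g ^ (cnt P h n / (h + 1)) := by
      rw [← pow_succ']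
      exact pow_le_pow_right₀ hg1 h1
    have h3 : (b : ℝ) ^ (n + 1) / (g * g ^ (cnt P h n / (h + 1))) ≤
        (b : ℝ) ^ (n + 1) / g ^ (cnt P h (n + 1) / (h + 1)) := by
      gcongr
    refine le_trans ?_ (mul_le_mul_of_nonneg_left h3 (by norm_num))
    have h4 : (7 / 8 : ℝ) ^ 4 * ((b : ℝ) ^ (n + 1) / (g * g ^ (cnt P h n / (h + 1)))) =
        ((7 / 8) ^ 4 * (b / g)) * ((b : ℝ) ^ n / g ^ (cnt P h n / (h + 1))) := by
      generalize g ^ (cnt P h n / (h + 1)) = G
      rw [pow_succ]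
      ring
    rw [h4]
    have h5 : (2 : ℝ) / (28 / 27) ≤ b / g := by gcongr
    have h6 : (1 : ℝ) ≤ (7 / 8) ^ 4 * (b / g) := by
      have : (1 : ℝ) ≤ (7 / 8) ^ 4 * (2 / (28 / 27)) := by norm_num
      linarith
    have h7 : 0 ≤ (b : ℝ) ^ n / g ^ (cnt P h n / (h + 1)) := by positivity
    nlinarith
  have hBstep : ∀ n, B n ≤ 7 / 8 * B (n + 1) := by
    intro n
    have h1 : B n ^ 4 ≤ (7 / 8 * B (n + 1)) ^ 4 := by
      rw [mul_pow, hB4, hB4]
      have := mul_le_mul_of_nonneg_left (hustep n) (by linarith : 0 ≤ 3 * E)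
      linarith
    exact (pow_le_pow_iff_left₀ (hB0 n) (mul_nonneg (by norm_num) (hB0 _)) (by norm_num)).mp h1
  -- the dyadic pieces
  have hpiece : ∀ n, (#{m ∈ below A x | b ^ n ≤ m ∧ m < b ^ (n + 1)} : ℝ) ≤ B (n + 1) := by
    intro n
    have hF := Helper48.MD.F (S := {m ∈ below A x | b ^ n ≤ m ∧ m < b ^ (n + 1)}) hb (h := h)
      (n := n + 1) P w hw (fun a ha => by
        rw [Nat.add_sub_cancel]
        exact (mem_filter.mp ha).2)
      (fun a ha p hp hpa => hA a (mem_below.mp (mem_filter.mp ha).1).2 p hp hpa)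
    have hEn := energy_le (A := A) (x := x) (S := {m ∈ below A x | b ^ n ≤ m ∧ m < b ^ (n + 1)})
      (filter_subset _ _) (2 * b ^ (n + 1))
    have h1 : (#{m ∈ below A x | b ^ n ≤ m ∧ m < b ^ (n + 1)} : ℝ) ^ 4 *
        g ^ (cnt P h (n + 1) / (h + 1)) ≤ 3 * (b : ℝ) ^ (n + 1) * E :=
      le_trans hF (mul_le_mul_of_nonneg_left hEn (by positivity))
    have h2 : (#{m ∈ below A x | b ^ n ≤ m ∧ m < b ^ (n + 1)} : ℝ) ^ 4 ≤ B (n + 1) ^ 4 := by
      rw [hB4]
      have h3 : 3 * E * u (n + 1) =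
          (3 * (b : ℝ) ^ (n + 1) * E) / g ^ (cnt P h (n + 1) / (h + 1)) := by
        simp only [hu]
        ring
      rw [h3, le_div_iff₀ (by positivity)]
      exact h1
    exact (pow_le_pow_iff_left₀ (by positivity) (hB0 _) (by norm_num)).mp h2
  have hT : ∀ n, (#{m ∈ below A x | m < b ^ n} : ℝ) ≤ 8 * B n := by
    intro n
    induction n with
    | zero =>
      by_cases h0 : 0 ∈ A
      · have h1 : (1 : ℝ) ≤ E := by
          have h2 := single_le_sum (f := fun n => (rep A n : ℝ) ^ 2) (s := range (2 * x))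
            (fun _ _ => sq_nonneg _) (mem_range.mpr (by omega : 0 < 2 * x))
          have h3 : rep A 0 = 1 := by
            unfold rep
            simp [h0, filter_singleton]
          rw [h3] at h2
          simpa using h2
        have h4 : (#{m ∈ below A x | m < b ^ 0} : ℝ) ≤ 1 := by
          have : ({m ∈ below A x | m < b ^ 0} : Finset ℕ) ⊆ {0} := by
            intro m hm
            rw [mem_filter, pow_zero] at hm
            rw [mem_singleton]
            omega
          exact_mod_cast (card_le_card this)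
        have h5 : (1 : ℝ) ≤ B 0 := by
          have h6 : (1 : ℝ) ^ 4 ≤ B 0 ^ 4 := by
            rw [hB4]
            have h7 : u 0 = 1 := by
              simp [hu, cnt]
            rw [h7]
            linarith
          exact (pow_le_pow_iff_left₀ (by norm_num) (hB0 _) (by norm_num)).mp h6
        linarith
      · have h1 : ({m ∈ below A x | m < b ^ 0} : Finset ℕ) = ∅ := by
          rw [filter_eq_empty_iff]
          intro m hm hm1
          rw [pow_zero] at hm1
          have : m = 0 := by omega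
          subst this
          exact h0 (mem_below.mp hm).2
        rw [h1, card_empty]
        have := hB0 0
        push_cast
        linarith
    | succ n ih =>
      have h1 : ({m ∈ below A x | m < b ^ (n + 1)} : Finset ℕ) ⊆
          {m ∈ below A x | m < b ^ n} ∪ {m ∈ below A x | b ^ n ≤ m ∧ m < b ^ (n + 1)} := by
        intro m hm
        rw [mem_filter] at hm
        rw [mem_union, mem_filter, mem_filter]
        by_cases hmn : m < b ^ n
        · left; exact ⟨hm.1, hmn⟩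
        · right; exact ⟨hm.1, not_lt.mp hmn, hm.2⟩
      have h2 : (#{m ∈ below A x | m < b ^ (n + 1)} : ℝ) ≤ #{m ∈ below A x | m < b ^ n} +
          #{m ∈ below A x | b ^ n ≤ m ∧ m < b ^ (n + 1)} := by
        exact_mod_cast (card_le_card h1).trans (card_union_le _ _)
      have h3 := hpiece n
      have h4 := hBstep n
      linarith
  -- conclusion
  set L := Nat.log b x with hL
  have h1 : ({m ∈ below A x | m < b ^ (L + 1)} : Finset ℕ) = below A x := by
    rw [filter_eq_self]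
    intro m hm
    exact (mem_below.mp hm).1.trans (Nat.lt_pow_succ_log_self (by omega) x)
  have h2 := hT (L + 1)
  rw [h1] at h2
  have h3 : (#(below A x) : ℝ) ^ 4 ≤ (8 * B (L + 1)) ^ 4 := pow_le_pow_left₀ (by positivity) h2 4
  rw [mul_pow, hB4] at h3
  have h4 : #{p ∈ range L | p ∈ P} / (h + 1) ≤ cnt P h (L + 1) / (h + 1) + 1 := by
    rw [← Nat.add_div_right _ (by omega)]
    exact Nat.div_le_div_right ((cnt_ge P hh L).trans (by omega))
  have h5 : g ^ (#{p ∈ range L | p ∈ P} / (h + 1)) ≤ g * g ^ (cnt P h (L + 1) / (h + 1)) := by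
    rw [← pow_succ']
    exact pow_le_pow_right₀ hg1 h4
  have h6 : (b : ℝ) ^ L ≤ x := by
    exact_mod_cast Nat.pow_log_le_self b (by omega)
  calc (#(below A x) : ℝ) ^ 4 * g ^ (#{p ∈ range L | p ∈ P} / (h + 1)) ≤
        (8 ^ 4 * (3 * E * u (L + 1))) * (g * g ^ (cnt P h (L + 1) / (h + 1))) := by
        gcongr
    _ = 12288 * g * E * (b * (b : ℝ) ^ L) := by
        simp only [hu]
        have hG : g ^ (cnt P h (L + 1) / (h + 1)) ≠ 0 := by positivity
        generalize g ^ (cnt P h (L + 1) / (h + 1)) = G at hG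
        rw [pow_succ]
        field_simp
        ring
    _ ≤ 12288 * (28 / 27) * E * (b * x) := by gcongr
    _ ≤ 25000 * b * x * E := by
        have h7 : 0 ≤ E * (b * x) := by positivity
        nlinarith

end Pool.Agent.Helper73.MD
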